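import Mathlib

/-!
# The square of Bing's Example G with integer colours

`G S` is the set of all integer valued functions `z` of integer valued functions on a set `S`, all points
isolated except the evaluations `ev a` at the points `a` of `S`, whose basic neighbourhoods are the sets
of all `z` with `z f = f a` for finitely many given `f`. In this file: `G S` is hereditarily normal, every
countable partition of it has an open expansion covering each point at most twice, and for `S = ω₁` the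
square of `G S` is not a `Δ`-space.
-/

open Set Cardinal Topology

namespace Pool.Agent.helper2.BingG

/-- The partition of `X` into the fibres of `f : X → ℕ` has a point-finite open expansion. -/
def Expands {X : Type*} [TopologicalSpace X] (f : X → ℕ) : Prop :=
  ∃ U : ℕ → Set X, (∀ n, IsOpen (U n)) ∧ (∀ x, x ∈ U (f x)) ∧ ∀ x, {n | x ∈ U n}.Finite

/-- `X` is a `Δ`-space: every countable partition has a point-finite open expansion. -/
def IsDelta (X : Type*) [TopologicalSpace X] : Prop := ∀ f : X → ℕ, Expands f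

/-- The points of the space: integer valued functions of integer valued functions on `S`. -/
def G (S : Type) : Type := (S → ℕ) → ℕ

variable {S : Type}

/-- The evaluation at `a`. -/
def ev (a : S) : G S := fun f => f a

/-- The basic neighbourhoods of the evaluation at `a`. -/
def nb (a : S) (P : Finset (S → ℕ)) : Set (G S) := {z | ∀ f ∈ P, z f = f a}

theorem ev_mem_nb (a : S) (P : Finset (S → ℕ)) : ev a ∈ nb a P := fun _ _ => rfl

theorem nb_mono (a : S) {P Q : Finset (S → ℕ)} (h : P ⊆ Q) : nb a Q ⊆ nb a P :=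
  fun _ hz f hf => hz f (h hf)

open Classical in
instance : TopologicalSpace (G S) where
  IsOpen U := ∀ a : S, ev a ∈ U → ∃ P : Finset (S → ℕ), nb a P ⊆ U
  isOpen_univ := fun _ _ => ⟨∅, subset_univ _⟩
  isOpen_inter := by
    intro U V hU hV a ha
    obtain ⟨P, hP⟩ := hU a ha.1
    obtain ⟨Q, hQ⟩ := hV a ha.2
    exact ⟨P ∪ Q, fun z hz => ⟨hP (nb_mono a Finset.subset_union_left hz),
      hQ (nb_mono a Finset.subset_union_right hz)⟩⟩
  isOpen_sUnion := by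
    intro 𝒰 h𝒰 a ha
    obtain ⟨U, hU, haU⟩ := ha
    obtain ⟨P, hP⟩ := h𝒰 U hU a haU
    exact ⟨P, hP.trans (subset_sUnion_of_mem hU)⟩

theorem isOpen_def {U : Set (G S)} :
    IsOpen U ↔ ∀ a : S, ev a ∈ U → ∃ P : Finset (S → ℕ), nb a P ⊆ U := Iff.rfl

theorem isOpen_nb (a : S) (P : Finset (S → ℕ)) : IsOpen (nb a P) := by
  rw [isOpen_def]
  intro b hb
  exact ⟨P, fun z hz f hf => (hz f hf).trans (hb f hf)⟩

open Classical in
/-- The indicator function of a set. -/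
noncomputable def ind (T : Set S) : S → ℕ := fun x => if x ∈ T then 1 else 0

theorem ind_eq_one {T : Set S} {x : S} : ind T x = 1 ↔ x ∈ T := by
  unfold ind; split_ifs <;> simp_all

theorem ind_eq_zero {T : Set S} {x : S} : ind T x = 0 ↔ x ∉ T := by
  unfold ind; split_ifs <;> simp_all

theorem ev_injective : Function.Injective (ev : S → G S) := by
  intro a b h
  have h1 : ind {a} a = ind {a} b := congrFun h (ind {a})
  rw [ind_eq_one.2 (mem_singleton a)] at h1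
  exact (ind_eq_one.1 h1.symm).symm

theorem isOpen_singleton_of_notMem {z : G S} (hz : z ∉ range (ev : S → G S)) :
    IsOpen ({z} : Set (G S)) := by
  rw [isOpen_def]
  intro a ha
  exact absurd ⟨a, ha⟩ hz

theorem isClosed_of_subset {T : Set (G S)} (hT : T ⊆ range (ev : S → G S)) : IsClosed T := by
  rw [← isOpen_compl_iff, isOpen_def]
  intro a ha
  refine ⟨{ind {a}}, fun z hz hzT => ?_⟩
  obtain ⟨b, rfl⟩ := hT hzT
  have h1 : ind {a} b = ind {a} a := hz _ (Finset.mem_singleton_self _)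
  rw [ind_eq_one.2 (mem_singleton a)] at h1
  have h2 : b = a := ind_eq_one.1 h1
  subst h2
  exact ha hzT

theorem expansion (f : G S → ℕ) : ∃ U : ℕ → Set (G S), (∀ n, IsOpen (U n)) ∧
    (∀ x, x ∈ U (f x)) ∧ ∀ x, {n | x ∈ U n}.Finite ∧ {n | x ∈ U n}.ncard ≤ 2 := by
  let φ : S → ℕ := fun a => f (ev a)
  refine ⟨fun n => {z | f z = n ∨ z φ = n}, fun n => ?_, fun x => Or.inl rfl, fun x => ?_⟩
  · rw [isOpen_def]
    intro a ha
    refine ⟨{φ}, fun z hz => Or.inr ?_⟩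
    have h1 : z φ = φ a := hz φ (Finset.mem_singleton_self _)
    rcases ha with h | h
    · exact h1.trans h
    · exact h1.trans h
  · have h1 : {n | x ∈ {z : G S | f z = n ∨ z φ = n}} = {f x, x φ} := by
      ext n
      rw [mem_insert_iff, mem_singleton_iff]
      constructor
      · rintro (h | h)
        · exact Or.inl h.symm
        · exact Or.inr h.symm
      · rintro (h | h)
        · exact Or.inl h.symm
        · exact Or.inr h.symm
    rw [h1]
    exact ⟨toFinite _, (ncard_insert_le _ _).trans (by rw [ncard_singleton])⟩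

instance : T1Space (G S) := by
  refine ⟨fun z => ?_⟩
  rw [← isOpen_compl_iff, isOpen_def]
  intro a ha
  have h1 : ∃ f : S → ℕ, z f ≠ f a := by
    by_contra hcon
    push Not at hcon
    exact ha (funext hcon).symm
  obtain ⟨f, hf⟩ := h1
  refine ⟨{f}, fun y hy hyz => hf ?_⟩
  rw [mem_singleton_iff] at hyz
  subst hyz
  exact hy f (Finset.mem_singleton_self _)

open Classical in
instance : T5Space (G S) where
  completely_normal := by
    intro s t hst hst'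
    rw [← separatedNhds_iff_disjoint]
    let g : S → ℕ := ind {a | ev a ∈ s}
    refine ⟨{z | z ∉ closure t ∧ (z ∈ s ∨ z g = 1)}, {z | z ∉ closure s ∧ (z ∈ t ∨ z g = 0)},
      ?_, ?_, ?_, ?_, ?_⟩
    · rw [isOpen_def]
      intro a ha
      have hop : IsOpen (closure t)ᶜ := isClosed_closure.isOpen_compl
      obtain ⟨P, hP⟩ := isOpen_def.1 hop a ha.1
      refine ⟨insert g P, fun z hz => ⟨hP (nb_mono a (Finset.subset_insert g P) hz), Or.inr ?_⟩⟩
      have h1 : z g = g a := hz g (Finset.mem_insert_self _ _)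
      rw [h1]
      rcases ha.2 with h | h
      · exact ind_eq_one.2 h
      · exact h
    · rw [isOpen_def]
      intro a ha
      have hop : IsOpen (closure s)ᶜ := isClosed_closure.isOpen_compl
      obtain ⟨P, hP⟩ := isOpen_def.1 hop a ha.1
      refine ⟨insert g P, fun z hz => ⟨hP (nb_mono a (Finset.subset_insert g P) hz), Or.inr ?_⟩⟩
      have h1 : z g = g a := hz g (Finset.mem_insert_self _ _)
      rw [h1]
      exact ind_eq_zero.2 fun h => ha.1 (subset_closure h)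
    · intro z hz
      exact ⟨fun h => hst'.le_bot ⟨hz, h⟩, Or.inl hz⟩
    · intro z hz
      exact ⟨fun h => hst.le_bot ⟨h, hz⟩, Or.inl hz⟩
    · rw [Set.disjoint_left]
      rintro z ⟨hz1, hz2⟩ ⟨hz3, hz4⟩
      have h5 : z ∉ s := fun h => hz3 (subset_closure h)
      have h6 : z ∉ t := fun h => hz1 (subset_closure h)
      have h7 := hz2.resolve_left h5
      have h8 := hz4.resolve_left h6
      rw [h7] at h8
      exact one_ne_zero h8


/-- A function on the pairs whose large values are hard to avoid. -/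
theorem exists_F (S : Type) [LinearOrder S] (hS : ∀ a : S, (Iio a).Countable) :
    ∃ F : S → S → ℕ, ∀ (A : Set S) (k : ℕ), ¬ A.Countable →
      {b | {a ∈ A | k ≤ F a b}.Countable}.Finite := by
  classical
  have he : ∀ a : S, ∃ e : Iio a → ℕ, Function.Injective e := fun a =>
    (countable_iff_exists_injective (Iio a)).1 (hS a).to_subtype
  choose e he using he
  refine ⟨fun a b => if h : b < a then e a ⟨b, h⟩ else 0, fun A k hA => ?_⟩
  by_contra hinf
  obtain ⟨T, hT, hcard⟩ := (not_finite.1 hinf : Set.Infinite _).exists_subset_card_eq (k + 1)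
  apply hA
  have hcov : A ⊆ (⋃ b ∈ T, {a ∈ A | k ≤ (if h : b < a then e a ⟨b, h⟩ else 0)}) ∪
      ⋃ b ∈ T, Iic b := by
    intro a ha
    by_contra hcon
    simp only [mem_union, mem_iUnion, not_or, not_exists] at hcon
    obtain ⟨h1, h2⟩ := hcon
    have h3 : ∀ b ∈ T, ∃ h : b < a, e a ⟨b, h⟩ < k := by
      intro b hb
      have h4 : b < a := not_le.1 (h2 b hb)
      refine ⟨h4, ?_⟩
      by_contra h5
      apply h1 b hb
      refine ⟨ha, ?_⟩
      rw [dif_pos h4]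
      exact not_lt.1 h5
    have h6 : T.card ≤ (Finset.range k).card := by
      apply Finset.card_le_card_of_injOn (fun b => if h : b < a then e a ⟨b, h⟩ else 0)
      · intro b hb
        obtain ⟨h, h'⟩ := h3 b hb
        simp only [dif_pos h, Finset.coe_range, mem_Iio]
        exact h'
      · intro b hb c hc hbc
        obtain ⟨h, -⟩ := h3 b hb
        obtain ⟨h', -⟩ := h3 c hc
        simp only [dif_pos h, dif_pos h'] at hbc
        exact congrArg Subtype.val (he a hbc)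
    rw [hcard, Finset.card_range] at h6
    omega
  refine Countable.mono hcov (Countable.union ?_ ?_)
  · exact T.countable_toSet.biUnion fun b hb => hT hb
  · refine T.countable_toSet.biUnion fun b _ => ?_
    have h7 : Iic b = insert b (Iio b) := (Iio_insert).symm
    rw [h7]
    exact (hS b).insert b

/-- An uncountable set has an uncountable fibre for each map to a countable type. -/
theorem exists_fibre {S T : Type*} [Countable T] {A : Set S} (hA : ¬ A.Countable) (g : S → T) :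
    ∃ t, ¬ {a ∈ A | g a = t}.Countable := by
  by_contra hcon
  push Not at hcon
  apply hA
  refine Countable.mono (s₂ := ⋃ t, {a ∈ A | g a = t}) ?_ (countable_iUnion hcon)
  intro a ha
  rw [mem_iUnion]
  exact ⟨g a, ha, rfl⟩

/-- Thinning out to constant values on a finite set of functions. -/
theorem exists_const {S : Type} {A : Set S} (hA : ¬ A.Countable) (ρ : Finset (S → ℕ)) :
    ∃ (v : (S → ℕ) → ℕ) (A' : Set S), A' ⊆ A ∧ ¬ A'.Countable ∧ ∀ a ∈ A', ∀ f ∈ ρ, f a = v f := by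
  classical
  obtain ⟨t, ht⟩ := exists_fibre hA (fun a => fun f : ρ => (f : S → ℕ) a)
  refine ⟨fun f => if h : f ∈ ρ then t ⟨f, h⟩ else 0, _, fun a ha => ha.1, ht, ?_⟩
  rintro a ⟨-, ha⟩ f hf
  have h1 : f a = t ⟨f, hf⟩ := congrFun ha ⟨f, hf⟩
  rw [h1]
  show t ⟨f, hf⟩ = if h : f ∈ ρ then t ⟨f, h⟩ else 0
  rw [dif_pos hf]

/-- A root for an uncountable family of finite sets. -/
theorem exists_root {S Λ : Type*} (P : S → Finset Λ) {A : Set S} (hA : ¬ A.Countable) :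
    ∃ (ρ : Finset Λ) (A' : Set S), A' ⊆ A ∧ ¬ A'.Countable ∧ (∀ a ∈ A', ρ ⊆ P a) ∧
      ∀ x ∉ ρ, {a ∈ A' | x ∈ P a}.Countable := by
  classical
  obtain ⟨n, hn⟩ := exists_fibre hA (fun a => (P a).card)
  by_contra hcon
  push Not at hcon
  have hstep : ∀ ρ : Finset Λ, ¬ {a | (a ∈ A ∧ (P a).card = n) ∧ ρ ⊆ P a}.Countable →
      ∃ x ∉ ρ, ¬ {a | (a ∈ A ∧ (P a).card = n) ∧ insert x ρ ⊆ P a}.Countable := by
    intro ρ hρ
    obtain ⟨x, hx, hx'⟩ := hcon ρ _ (fun a ha => ha.1.1) hρ (fun a ha => ha.2)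
    refine ⟨x, hx, fun h => hx' (h.mono ?_)⟩
    rintro a ⟨⟨h1, h2⟩, h3⟩
    refine ⟨h1, ?_⟩
    rw [Finset.insert_subset_iff]
    exact ⟨h3, h2⟩
  have hall : ∀ j : ℕ, ∃ ρ : Finset Λ, ρ.card = j ∧
      ¬ {a | (a ∈ A ∧ (P a).card = n) ∧ ρ ⊆ P a}.Countable := by
    intro j
    induction j with
    | zero =>
      refine ⟨∅, rfl, fun h => hn (h.mono ?_)⟩
      rintro a ⟨h1, h2⟩
      exact ⟨⟨h1, h2⟩, Finset.empty_subset _⟩
    | succ j ih =>
      obtain ⟨ρ, h1, h2⟩ := ih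
      obtain ⟨x, hx, hx'⟩ := hstep ρ h2
      exact ⟨insert x ρ, by rw [Finset.card_insert_of_notMem hx, h1], hx'⟩
  obtain ⟨ρ, h1, h2⟩ := hall (n + 1)
  have h3 : ({a | (a ∈ A ∧ (P a).card = n) ∧ ρ ⊆ P a}).Nonempty := by
    by_contra h4
    rw [not_nonempty_iff_eq_empty] at h4
    rw [h4] at h2
    exact h2 countable_empty
  obtain ⟨a, ⟨-, h5⟩, h6⟩ := h3
  have h7 := Finset.card_le_card h6
  omega

/-- Away from countably many indices the finite sets meet a countable set within the root. -/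
theorem countable_bad {S Λ : Type*} {P : S → Finset Λ} {ρ : Finset Λ} {A : Set S}
    (h : ∀ x ∉ ρ, {a ∈ A | x ∈ P a}.Countable) {Γ : Set Λ} (hΓ : Γ.Countable) :
    {a ∈ A | ∃ x ∈ P a, x ∈ Γ ∧ x ∉ ρ}.Countable := by
  refine Countable.mono ?_ ((hΓ.mono (sep_subset Γ fun x => x ∉ ρ)).biUnion
    (t := fun x _ => {a ∈ A | x ∈ P a}) fun x hx => h x hx.2)
  rintro a ⟨ha, x, hx, hxΓ, hxρ⟩
  exact mem_biUnion (⟨hxΓ, hxρ⟩ : x ∈ {x ∈ Γ | x ∉ ρ}) ⟨ha, hx⟩

theorem exists_good {S : Type*} {A B : Set S} (hA : ¬ A.Countable) (hB : B.Countable) :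
    ∃ a ∈ A, a ∉ B := by
  by_contra hcon
  push Not at hcon
  exact hA (hB.mono hcon)

/-- The one-step lemma. -/
theorem step {S : Type} {F : S → S → ℕ} (hF : ∀ (A : Set S) (k : ℕ), ¬ A.Countable →
      {b | {a ∈ A | k ≤ F a b}.Countable}.Finite) (P : S → S → Finset (S → ℕ)) (k : ℕ)
    {A B : Set S} (hA : ¬ A.Countable) (hB : ¬ B.Countable) :
    ∃ (ρ : Finset (S → ℕ)) (v w : (S → ℕ) → ℕ) (A' B' : Set S), A' ⊆ A ∧ B' ⊆ B ∧
      ¬ A'.Countable ∧ ¬ B'.Countable ∧ (∀ a ∈ A', ∀ f ∈ ρ, f a = v f) ∧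
      (∀ b ∈ B', ∀ f ∈ ρ, f b = w f) ∧ ∀ Γ : Set (S → ℕ), Γ.Countable →
        ∃ a ∈ A, ∃ b ∈ B, k ≤ F a b ∧ (∀ f ∈ P a b, f ∈ Γ → f ∈ ρ) ∧
          ∀ f ∈ ρ, f a = v f ∧ f b = w f := by
  classical
  -- for each good `b` a root and a thinned out set
  have h1 : ∀ b : S, ∃ (ρ : Finset (S → ℕ)) (v : (S → ℕ) → ℕ) (A' : Set S),
      ¬ {a ∈ A | k ≤ F a b}.Countable → (A' ⊆ {a ∈ A | k ≤ F a b} ∧ ¬ A'.Countable ∧
        (∀ x ∉ ρ, {a ∈ A' | x ∈ P a b}.Countable) ∧ ∀ a ∈ A', ∀ f ∈ ρ, f a = v f) := by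
    intro b
    by_cases hb : {a ∈ A | k ≤ F a b}.Countable
    · exact ⟨∅, 0, ∅, fun h => absurd hb h⟩
    · obtain ⟨ρ, A₁, h2, h3, -, h5⟩ := exists_root (fun a => P a b) hb
      obtain ⟨v, A₂, h6, h7, h8⟩ := exists_const h3 ρ
      refine ⟨ρ, v, A₂, fun _ => ⟨h6.trans h2, h7, fun x hx => ?_, h8⟩⟩
      refine Countable.mono (s₂ := {a ∈ A₁ | x ∈ P a b}) ?_ (h5 x hx)
      exact fun a ha => ⟨h6 ha.1, ha.2⟩
  choose ρ v A' h1 using h1
  have hB₀ : ¬ {b ∈ B | ¬ {a ∈ A | k ≤ F a b}.Countable}.Countable := by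
    intro h
    apply hB
    refine (h.union (hF A k hA).countable).mono fun b hb => ?_
    by_cases hb' : {a ∈ A | k ≤ F a b}.Countable
    · exact Or.inr hb'
    · exact Or.inl ⟨hb, hb'⟩
  obtain ⟨R, B₁, h2, h3, h4, h5⟩ :=
    exists_root (fun b => (ρ b).image fun f => ((f, v b f) : (S → ℕ) × ℕ)) hB₀
  have hne : B₁.Nonempty := by
    by_contra h
    rw [not_nonempty_iff_eq_empty] at h
    exact h3 (h ▸ countable_empty)
  obtain ⟨b₀, hb₀⟩ := hne
  have hR : ∀ b ∈ B₁, ∀ f ∈ R.image Prod.fst, f ∈ ρ b ∧ v b f = v b₀ f := by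
    intro b hb f hf
    obtain ⟨⟨f', c⟩, hp, rfl⟩ := Finset.mem_image.1 hf
    obtain ⟨g, hg, hg'⟩ := Finset.mem_image.1 (h4 b hb hp)
    obtain ⟨g₀, hg₀, hg₀'⟩ := Finset.mem_image.1 (h4 b₀ hb₀ hp)
    simp only [Prod.mk.injEq] at hg' hg₀'
    obtain ⟨rfl, hc⟩ := hg'
    obtain ⟨rfl, hc₀⟩ := hg₀'
    exact ⟨hg, hc.trans hc₀.symm⟩
  obtain ⟨w, B₂, h6, h7, h8⟩ := exists_const h3 (R.image Prod.fst)
  obtain ⟨ha1, ha2, -, ha4⟩ := h1 b₀ (h2 hb₀).2
  refine ⟨R.image Prod.fst, v b₀, w, A' b₀, B₂, ha1.trans (sep_subset _ _),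
    h6.trans (h2.trans (sep_subset _ _)), ha2, h7,
    fun a ha f hf => ha4 a ha f (hR b₀ hb₀ f hf).1, h8, ?_⟩
  intro Γ hΓ
  have hΓ' : (Γ ×ˢ (univ : Set ℕ)).Countable := hΓ.prod countable_univ
  obtain ⟨b, hb, hb'⟩ := exists_good h7 (countable_bad h5 hΓ')
  have hbB₁ := h6 hb
  obtain ⟨hb1, hb2, hb3, hb4⟩ := h1 b (h2 hbB₁).2
  obtain ⟨a, ha, ha'⟩ := exists_good hb2 (countable_bad hb3 hΓ)
  refine ⟨a, (hb1 ha).1, b, (h2 hbB₁).1, (hb1 ha).2, ?_, ?_⟩
  · intro f hf hfΓ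
    have h9 : f ∈ ρ b := by
      by_contra h10
      exact ha' ⟨ha, f, hf, hfΓ, h10⟩
    by_contra h11
    apply hb'
    refine ⟨hbB₁, (f, v b f), Finset.mem_image_of_mem _ h9, ⟨hfΓ, mem_univ _⟩, fun h12 => h11 ?_⟩
    exact Finset.mem_image_of_mem Prod.fst h12
  · intro f hf
    obtain ⟨h9, h10⟩ := hR b hbB₁ f hf
    exact ⟨(hb4 a ha f h9).trans h10, h8 b hb f hf⟩

/-- The two points on which arbitrarily large values of `F` pile up. -/
theorem pile {S : Type} (hS : ¬ (univ : Set S).Countable) {F : S → S → ℕ}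
    (hF : ∀ (A : Set S) (k : ℕ), ¬ A.Countable → {b | {a ∈ A | k ≤ F a b}.Countable}.Finite)
    (P : S → S → Finset (S → ℕ)) :
    ∃ z z' : G S, ∀ k : ℕ, ∃ a b : S, k ≤ F a b ∧ z ∈ nb a (P a b) ∧ z' ∈ nb b (P a b) := by
  classical
  have hstep : ∀ (k : ℕ) (s : {p : Set S × Set S // ¬ p.1.Countable ∧ ¬ p.2.Countable}),
      ∃ (ρ : Finset (S → ℕ)) (v w : (S → ℕ) → ℕ)
        (s' : {p : Set S × Set S // ¬ p.1.Countable ∧ ¬ p.2.Countable}),
        s'.1.1 ⊆ s.1.1 ∧ s'.1.2 ⊆ s.1.2 ∧ (∀ a ∈ s'.1.1, ∀ f ∈ ρ, f a = v f) ∧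
        (∀ b ∈ s'.1.2, ∀ f ∈ ρ, f b = w f) ∧ ∀ Γ : Set (S → ℕ), Γ.Countable →
          ∃ a b : S, a ∈ s.1.1 ∧ b ∈ s.1.2 ∧ k ≤ F a b ∧ (∀ f ∈ P a b, f ∈ Γ → f ∈ ρ) ∧
            ∀ f ∈ ρ, f a = v f ∧ f b = w f := by
    intro k s
    obtain ⟨ρ, v, w, A', B', h1, h2, h3, h4, h5, h6, h7⟩ := step hF P k s.2.1 s.2.2
    refine ⟨ρ, v, w, ⟨(A', B'), h3, h4⟩, h1, h2, h5, h6, fun Γ hΓ => ?_⟩
    obtain ⟨a, ha, b, hb, h8⟩ := h7 Γ hΓ
    exact ⟨a, b, ha, hb, h8⟩
  choose ρ v w nx h1 h2 h3 h4 h5 using hstep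
  let st : ℕ → {p : Set S × Set S // ¬ p.1.Countable ∧ ¬ p.2.Countable} := fun n =>
    Nat.rec ⟨(univ, univ), hS, hS⟩ (fun k s => nx k s) n
  have hst : ∀ k, st (k + 1) = nx k (st k) := fun k => rfl
  have hA : Antitone fun k => (st k).1.1 := antitone_nat_of_succ_le fun k => by
    rw [hst]; exact h1 k (st k)
  have hB : Antitone fun k => (st k).1.2 := antitone_nat_of_succ_le fun k => by
    rw [hst]; exact h2 k (st k)
  choose α β g1 g2 g3 g4 g5 using fun (k : ℕ) (Γ : {Γ : Set (S → ℕ) // Γ.Countable}) =>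
    h5 k (st k) Γ.1 Γ.2
  let Γ₀ : Set (S → ℕ) := ⋃ k, (ρ k (st k) : Set (S → ℕ))
  have hΓ₀ : Γ₀.Countable := countable_iUnion fun k => (ρ k (st k)).countable_toSet
  let Γs : ℕ → {Γ : Set (S → ℕ) // Γ.Countable} := fun n =>
    Nat.rec ⟨Γ₀, hΓ₀⟩ (fun k Γ => ⟨Γ.1 ∪ (P (α k Γ) (β k Γ) : Set (S → ℕ)),
      Γ.2.union (P (α k Γ) (β k Γ)).countable_toSet⟩) n
  have hΓs : ∀ k, (Γs (k + 1)).1 = (Γs k).1 ∪ (P (α k (Γs k)) (β k (Γs k)) : Set (S → ℕ)) :=
    fun k => rfl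
  have hmono : Monotone fun k => (Γs k).1 := monotone_nat_of_le_succ fun k => by
    show (Γs k).1 ⊆ (Γs (k + 1)).1
    rw [hΓs]
    exact subset_union_left
  have hcons : ∀ l k, l < k → ∀ f ∈ P (α l (Γs l)) (β l (Γs l)),
      f ∈ P (α k (Γs k)) (β k (Γs k)) →
        f (α l (Γs l)) = f (α k (Γs k)) ∧ f (β l (Γs l)) = f (β k (Γs k)) := by
    intro l k hlk f hfl hfk
    have e1 : f ∈ (Γs k).1 := by
      apply hmono (Nat.succ_le_of_lt hlk)
      show f ∈ (Γs (l + 1)).1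
      rw [hΓs]
      exact Or.inr hfl
    have e2 : f ∈ ρ k (st k) := g4 k (Γs k) f hfk e1
    have e3 : f ∈ (Γs l).1 := hmono (Nat.zero_le l) (mem_iUnion.2 ⟨k, e2⟩)
    have e4 : f ∈ ρ l (st l) := g4 l (Γs l) f hfl e3
    have e5 := g5 l (Γs l) f e4
    have e6 : α k (Γs k) ∈ (st (l + 1)).1.1 := hA (Nat.succ_le_of_lt hlk) (g1 k (Γs k))
    have e7 : β k (Γs k) ∈ (st (l + 1)).1.2 := hB (Nat.succ_le_of_lt hlk) (g2 k (Γs k))
    rw [hst] at e6 e7
    exact ⟨e5.1.trans (h3 l (st l) _ e6 f e4).symm, e5.2.trans (h4 l (st l) _ e7 f e4).symm⟩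
  have hcons' : ∀ l k, ∀ f ∈ P (α l (Γs l)) (β l (Γs l)),
      f ∈ P (α k (Γs k)) (β k (Γs k)) →
        f (α l (Γs l)) = f (α k (Γs k)) ∧ f (β l (Γs l)) = f (β k (Γs k)) := by
    intro l k f hfl hfk
    rcases lt_trichotomy l k with h | h | h
    · exact hcons l k h f hfl hfk
    · subst h
      exact ⟨rfl, rfl⟩
    · exact ⟨(hcons k l h f hfk hfl).1.symm, (hcons k l h f hfk hfl).2.symm⟩
  refine ⟨fun f => if h : ∃ k, f ∈ P (α k (Γs k)) (β k (Γs k)) then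
      f (α h.choose (Γs h.choose)) else 0,
    fun f => if h : ∃ k, f ∈ P (α k (Γs k)) (β k (Γs k)) then
      f (β h.choose (Γs h.choose)) else 0,
    fun k => ⟨α k (Γs k), β k (Γs k), g3 k (Γs k), fun f hf => ?_, fun f hf => ?_⟩⟩
  · have h : ∃ k, f ∈ P (α k (Γs k)) (β k (Γs k)) := ⟨k, hf⟩
    show (if h : ∃ k, f ∈ P (α k (Γs k)) (β k (Γs k)) then
      f (α h.choose (Γs h.choose)) else 0) = _
    rw [dif_pos h]
    exact (hcons' _ _ f h.choose_spec hf).1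
  · have h : ∃ k, f ∈ P (α k (Γs k)) (β k (Γs k)) := ⟨k, hf⟩
    show (if h : ∃ k, f ∈ P (α k (Γs k)) (β k (Γs k)) then
      f (β h.choose (Γs h.choose)) else 0) = _
    rw [dif_pos h]
    exact (hcons' _ _ f h.choose_spec hf).2

/-- The closed sets on which large values of `F` are taken. -/
def lv (F : S → S → ℕ) (n : ℕ) : Set (G S × G S) :=
  {p | ∃ a b : S, n ≤ F a b ∧ p = (ev a, ev b)}

theorem lv_antitone (F : S → S → ℕ) : Antitone (lv F) := by
  rintro m n hmn p ⟨a, b, hab, rfl⟩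
  exact ⟨a, b, hmn.trans hab, rfl⟩

theorem lv_subset (F : S → S → ℕ) (n : ℕ) : lv F n ⊆ range (ev : S → G S) ×ˢ range ev := by
  rintro p ⟨a, b, -, rfl⟩
  exact ⟨⟨a, rfl⟩, ⟨b, rfl⟩⟩

theorem iInter_lv (F : S → S → ℕ) : ⋂ n, lv F n = ∅ := by
  rw [eq_empty_iff_forall_notMem]
  intro p hp
  rw [mem_iInter] at hp
  obtain ⟨a, b, -, rfl⟩ := hp 0
  obtain ⟨a', b', h1, h2⟩ := hp (F a b + 1)
  rw [Prod.mk.injEq] at h2
  obtain ⟨h3, h4⟩ := h2
  rw [← ev_injective h3, ← ev_injective h4] at h1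
  omega

/-- Subsets of the square of the set of evaluations are closed. -/
theorem isClosed_prod_of_subset {T : Set (G S × G S)}
    (hT : T ⊆ range (ev : S → G S) ×ˢ range ev) : IsClosed T := by
  rw [← isOpen_compl_iff, isOpen_prod_iff]
  intro x y hxy
  -- each point of the space has a neighbourhood with at most one evaluation
  have key : ∀ x : G S, ∃ U : Set (G S), IsOpen U ∧ x ∈ U ∧ ∀ b : S, ev b ∈ U → ev b = x := by
    intro x
    refine ⟨(range (ev : S → G S) \ {x})ᶜ,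
      (isClosed_of_subset sdiff_subset).isOpen_compl, fun h => h.2 rfl, fun b hb => ?_⟩
    by_contra hne
    exact hb ⟨⟨b, rfl⟩, hne⟩
  obtain ⟨U, hU, hxU, hU'⟩ := key x
  obtain ⟨V, hV, hyV, hV'⟩ := key y
  refine ⟨U, V, hU, hV, hxU, hyV, ?_⟩
  rintro ⟨p, q⟩ ⟨hp, hq⟩ hpq
  obtain ⟨⟨a, ha⟩, ⟨b, hb⟩⟩ := hT hpq
  simp only at ha hb hp hq
  subst ha hb
  have e1 := hU' a hp
  have e2 := hV' b hq
  rw [e1, e2] at hpq
  exact hxy hpq

theorem pile_open (hS : ¬ (univ : Set S).Countable) {F : S → S → ℕ}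
    (hF : ∀ (A : Set S) (k : ℕ), ¬ A.Countable → {b | {a ∈ A | k ≤ F a b}.Countable}.Finite)
    (U : ℕ → Set (G S × G S)) (hU : ∀ n, IsOpen (U n)) (hmem : ∀ a b, (ev a, ev b) ∈ U (F a b)) :
    ∃ p : G S × G S, ∀ k : ℕ, ∃ n, k ≤ n ∧ p ∈ U n := by
  classical
  have h1 : ∀ a b : S, ∃ P : Finset (S → ℕ), nb a P ×ˢ nb b P ⊆ U (F a b) := by
    intro a b
    obtain ⟨u, v, hu, hv, hau, hbv, huv⟩ := isOpen_prod_iff.1 (hU (F a b)) _ _ (hmem a b)
    obtain ⟨P, hP⟩ := isOpen_def.1 hu a hau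
    obtain ⟨Q, hQ⟩ := isOpen_def.1 hv b hbv
    refine ⟨P ∪ Q, fun p hp => huv ⟨hP (nb_mono a Finset.subset_union_left hp.1),
      hQ (nb_mono b Finset.subset_union_right hp.2)⟩⟩
  choose P hP using h1
  obtain ⟨z, z', h2⟩ := pile hS hF P
  refine ⟨(z, z'), fun k => ?_⟩
  obtain ⟨a, b, h3, h4, h5⟩ := h2 k
  exact ⟨F a b, h3, hP a b ⟨h4, h5⟩⟩

theorem not_expands (hS : ¬ (univ : Set S).Countable) {F : S → S → ℕ}
    (hF : ∀ (A : Set S) (k : ℕ), ¬ A.Countable → {b | {a ∈ A | k ≤ F a b}.Countable}.Finite)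
    (V : ℕ → Set (G S × G S)) (hV : ∀ n, IsOpen (V n)) (hsub : ∀ n, lv F n ⊆ V n) :
    (⋂ n, V n).Nonempty := by
  obtain ⟨p, hp⟩ := pile_open hS hF (fun n => ⋂ m ∈ Iic n, V m)
    (fun n => (finite_Iic n).isOpen_biInter fun m _ => hV m)
    (fun a b => mem_iInter₂.2 fun m hm => hsub m ⟨a, b, hm, rfl⟩)
  refine ⟨p, mem_iInter.2 fun m => ?_⟩
  obtain ⟨n, hn, hpn⟩ := hp m
  exact mem_iInter₂.1 hpn m hn

theorem not_isDelta_prod (hS : ¬ (univ : Set S).Countable) {F : S → S → ℕ}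
    (hF : ∀ (A : Set S) (k : ℕ), ¬ A.Countable → {b | {a ∈ A | k ≤ F a b}.Countable}.Finite) :
    ¬ IsDelta (G S × G S) := by
  classical
  intro h
  obtain ⟨U, hU, hmem, hfin⟩ := h (fun p => if hp : ∃ q : S × S, p = (ev q.1, ev q.2) then
    F hp.choose.1 hp.choose.2 else 0)
  have h1 : ∀ a b : S, (ev a, ev b) ∈ U (F a b) := by
    intro a b
    have hp : ∃ q : S × S, ((ev a, ev b) : G S × G S) = (ev q.1, ev q.2) := ⟨(a, b), rfl⟩
    have h2 : ((ev a, ev b) : G S × G S) ∈ U (if hp : ∃ q : S × S,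
        ((ev a, ev b) : G S × G S) = (ev q.1, ev q.2) then F hp.choose.1 hp.choose.2 else 0) :=
      hmem (ev a, ev b)
    rw [dif_pos hp] at h2
    have h3 := hp.choose_spec
    rw [Prod.mk.injEq] at h3
    rwa [← ev_injective h3.1, ← ev_injective h3.2] at h2
  obtain ⟨p, hp⟩ := pile_open hS hF U hU h1
  obtain ⟨M, hM⟩ := (hfin p).bddAbove
  obtain ⟨n, hn, hpn⟩ := hp (M + 1)
  have := hM hpn
  omega

theorem final :
    ∃ (X : Type) (_ : TopologicalSpace X) (A : Set X),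
      T5Space X ∧ #A = ℵ₁ ∧ (∀ B ⊆ A, IsClosed B) ∧ (∀ x ∉ A, IsOpen {x}) ∧
      (∀ f : X → ℕ, ∃ U : ℕ → Set X, (∀ n, IsOpen (U n)) ∧ (∀ x, x ∈ U (f x)) ∧
        ∀ x, {n | x ∈ U n}.Finite ∧ {n | x ∈ U n}.ncard ≤ 2) ∧
      (∃ D : ℕ → Set (X × X), Antitone D ∧ (∀ n, IsClosed (D n)) ∧ (∀ n, D n ⊆ A ×ˢ A) ∧
        ⋂ n, D n = ∅ ∧ ∀ V : ℕ → Set (X × X), (∀ n, IsOpen (V n)) → (∀ n, D n ⊆ V n) →
          (⋂ n, V n).Nonempty) ∧
      ¬ IsDelta (X × X) := by
  classical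
  let S : Type := (ℵ₁ : Cardinal.{0}).ord.ToType
  have hcard : #S = ℵ₁ := mk_ord_toType _
  have hS : ¬ (univ : Set S).Countable := by
    rw [← le_aleph0_iff_set_countable, mk_univ, hcard, not_le]
    exact aleph0_lt_aleph_one
  have hI : ∀ a : S, (Iio a).Countable := by
    intro a
    rw [← le_aleph0_iff_set_countable, ← lt_aleph_one_iff]
    exact (mk_Iio_lt a (by simp [S])).trans_eq hcard
  obtain ⟨F, hF⟩ := exists_F S hI
  refine ⟨G S, inferInstance, range ev, inferInstance, ?_, fun B hB => isClosed_of_subset hB,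
    fun x hx => isOpen_singleton_of_notMem hx, expansion,
    ⟨lv F, lv_antitone F, fun n => isClosed_prod_of_subset (lv_subset F n), lv_subset F,
      iInter_lv F, not_expands hS hF⟩, not_isDelta_prod hS hF⟩
  rw [mk_range_eq _ ev_injective, hcard]

end Pool.Agent.helper2.BingG
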